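import Pool.Agent.H28R3.UphoNot

namespace Pool.Agent.Results.MP_8cec24_co.UphoLatticeNotMultiplicable

/-- `P` is upper homogeneous (upho): every principal filter `{x : x ≥ a}`, with the induced order,
is order-isomorphic to `P`. -/
def Upho (P : Type) [PartialOrder P] : Prop :=
  ∀ a : P, Nonempty (P ≃o {x : P // a ≤ x})

/-- Every two elements have a join (least upper bound) and a meet (greatest lower bound). -/
def IsLatticeOrder (P : Type) [PartialOrder P] : Prop :=
  ∀ a b : P, (∃ m, IsLUB {a, b} m) ∧ ∃ m, IsGLB {a, b} m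

/-- `P` is finitary: for each `a`, the lengths `n` of the chains `x 0 < ... < x n = a` are
bounded. -/
def Finitary (P : Type) [PartialOrder P] : Prop :=
  ∀ a : P, BddAbove {n : ℕ | ∃ x : Fin (n + 1) → P, StrictMono x ∧ x (Fin.last n) = a}

/-- `P` has a minimum `e` and is finite-type `ℕ`-graded: there is a rank function with value `0` at
`e`, which goes up by one along each covering pair and has finite level sets. -/
def FiniteTypeGraded (P : Type) [PartialOrder P] : Prop :=
  ∃ (e : P) (ρ : P → ℕ), (∀ x, e ≤ x) ∧ ρ e = 0 ∧ (∀ x y, x ⋖ y → ρ y = ρ x + 1) ∧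
    ∀ n, {x | ρ x = n}.Finite

/-- `P` is multiplicable: it carries a monoid structure that is left-cancellative and
invertible-free, and whose left divisibility relation is the order of `P`. -/
def Multiplicable (P : Type) [PartialOrder P] : Prop :=
  ∃ (mul : P → P → P) (e : P),
    (∀ a b c, mul (mul a b) c = mul a (mul b c)) ∧ (∀ a, mul e a = a ∧ mul a e = a) ∧
    (∀ a b c, mul a b = mul a c → b = c) ∧ (∀ a b, mul a b = e → a = e ∧ b = e) ∧
    ∀ a b, a ≤ b ↔ ∃ c, mul a c = b

/-- There is a finitary, finite-type `ℕ`-graded upho lattice that is not multiplicable. -/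
theorem result : ∃ (P : Type) (_ : PartialOrder P),
    Upho P ∧ IsLatticeOrder P ∧ Finitary P ∧ FiniteTypeGraded P ∧ ¬ Multiplicable P := by
  refine ⟨H28R3.Upho.P, inferInstance, fun a => H28R3.Upho.upho a,
    fun a b => ⟨H28R3.Upho.exists_isLUB a b, H28R3.Upho.exists_isGLB a b⟩, ?_,
    ⟨H28R3.Upho.bt, H28R3.Upho.rk, H28R3.Upho.bt_le, rfl, fun x y h => H28R3.Upho.rk_covBy h,
      H28R3.Upho.finite_rank⟩, ?_⟩
  · intro a
    refine ⟨H28R3.Upho.rk a, ?_⟩
    rintro n ⟨x, hx, rfl⟩
    have h : ∀ i : ℕ, ∀ hi : i < n + 1, i ≤ H28R3.Upho.rk (x ⟨i, hi⟩) := by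
      intro i
      induction i with
      | zero => intro _; exact Nat.zero_le _
      | succ i ih =>
        intro hi
        have h1 := ih (by omega)
        have h2 : x ⟨i, by omega⟩ < x ⟨i + 1, hi⟩ := hx (by simp [Fin.lt_def])
        have h3 := H28R3.Upho.rk_lt h2
        omega
    exact h n (by omega)
  · rintro ⟨mul, e, hass, _, hcan, _, hle⟩
    exact H28R3.Upho.not_mul mul hass hcan hle

end Pool.Agent.Results.MP_8cec24_co.UphoLatticeNotMultiplicable
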